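import Pool.Agent.Helper42.SG.GoalsT
import Pool.Agent.Helper42.SG.GoalsB

/-!
# Packet SGT-LAWC (MP_a41896_nt)
-/

set_option autoImplicit false

open MvPolynomial

namespace Pool.Agent.Helper53.SGT

open WeierstrassCurve Height
open Pool.Agent.Helper29.BL Pool.Agent.Helper92.Ru Pool.Agent.Helper42.SG

section nat

variable {R S : Type} [CommRing R] [CommRing S] (φ : R →+* S) (W : WeierstrassCurve R)

theorem map_Ah (t z : R) : φ (Ah W t z) = Ah (W.map φ) (φ t) (φ z) := by
  simp only [Ah, map_sub, map_mul, map_pow, WeierstrassCurve.map_b₄, WeierstrassCurve.map_b₆,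
    WeierstrassCurve.map_b₈, map_ofNat]

theorem map_Bh (t z : R) : φ (Bh W t z) = Bh (W.map φ) (φ t) (φ z) := by
  simp only [Bh, map_add, map_mul, map_pow, WeierstrassCurve.map_b₂, WeierstrassCurve.map_b₄,
    WeierstrassCurve.map_b₆, map_ofNat]

theorem map_Ch (t z : R) : φ (Ch W t z) = Ch (W.map φ) (φ t) (φ z) := by
  simp only [Ch, map_add, map_sub, map_mul, map_pow, WeierstrassCurve.map_b₂,
    WeierstrassCurve.map_b₄, WeierstrassCurve.map_b₆, WeierstrassCurve.map_b₈, map_ofNat]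

theorem map_Ph (e : ℕ) (x : R) : φ (Ph W e x).1 = (Ph (W.map φ) e (φ x)).1 ∧
    φ (Ph W e x).2 = (Ph (W.map φ) e (φ x)).2 := by
  induction e with
  | zero => exact ⟨rfl, map_one φ⟩
  | succ e ih =>
    refine ⟨?_, ?_⟩
    · show φ (Ah W (Ph W e x).1 (Ph W e x).2) = _
      rw [map_Ah, ih.1, ih.2]
      rfl
    · show φ (Bh W (Ph W e x).1 (Ph W e x).2) = _
      rw [map_Bh, ih.1, ih.2]
      rfl

theorem map_Rr (e : ℕ) (x : R) : φ (Rr W e x) = Rr (W.map φ) e (φ x) := by
  induction e with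
  | zero => exact map_one φ
  | succ e ih =>
    show φ (Rr W e x * Ch W (Ph W e x).1 (Ph W e x).2) = _
    rw [map_mul, map_Ch, ih, (map_Ph φ W e x).1, (map_Ph φ W e x).2]
    rfl

theorem map_law (e : ℕ) (l : Bool) (x c η : R) :
    φ (law W e l x c η).1 = (law (W.map φ) e l (φ x) (φ c) (φ η)).1 ∧
      φ (law W e l x c η).2 = (law (W.map φ) e l (φ x) (φ c) (φ η)).2 := by
  have h1 := (map_Ph φ W e x).1
  have h2 := (map_Ph φ W e x).2
  have h3 := map_Rr φ W e x
  cases l
  · constructor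
    · simp only [law, Uh, Bool.false_eq_true, if_false, map_mul, map_pow, map_sub, h1, h2,
        map_ofNat]
    · simp only [law, Th, Bool.false_eq_true, if_false, map_mul, map_pow, map_add, h1, h2, h3,
        map_ofNat, WeierstrassCurve.map_b₂, WeierstrassCurve.map_b₄, WeierstrassCurve.map_b₆]
  · constructor
    · simp only [law, Th, if_true, map_mul, map_pow, map_add, map_sub, h1, h2, h3,
        map_ofNat, WeierstrassCurve.map_b₂, WeierstrassCurve.map_b₄, WeierstrassCurve.map_b₆]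
    · simp only [law, Sh, if_true, map_mul, map_pow, map_add, map_sub, h1, h2,
        map_ofNat, WeierstrassCurve.map_b₄, WeierstrassCurve.map_b₆, WeierstrassCurve.map_b₈]

end nat

theorem t_LAWC (hR : RPOL) (hM : MINC) : LAWC := by
  intro K _ _ W n e c ξ ψ ω X Ψ d α lam hT hd hne hω hmin
  let S : Type := MvPowerSeries (Fin (2 * n + 2)) K
  let cc : S →+* K := MvPowerSeries.constantCoeff
  have hX : ∀ h, h < 2 * n + 2 → cc (X h) = ξ h := by
    intro h hh
    have := hT.eqX ⟨h, hh⟩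
    show MvPowerSeries.constantCoeff (X h) = ξ h
    rw [this]
    simp
  have hΨ : ∀ h, h < 2 * n + 2 → cc (Ψ h) = ψ h := fun h hh => hT.cst ⟨h, hh⟩
  have hW : ∀ i, (mapW S W i).map cc = mapW K W i := by
    intro i
    have h0 : ∀ x : K, cc (algebraMap K S x) = x := fun x => by
      show MvPowerSeries.constantCoeff
        (algebraMap K (MvPowerSeries (Fin (2 * n + 2)) K) x) = x
      rw [MvPowerSeries.algebraMap_apply]
      simp
    refine WeierstrassCurve.ext ?_ ?_ ?_ ?_ ?_
    · exact h0 _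
    · exact h0 _
    · exact h0 _
    · exact h0 _
    · exact h0 _
  have hlaw : ∀ (l : ℕ → Bool) h, h < 2 * n →
      cc (lawV (mapW S W) n e l X Ψ h).1 = (lawV (mapW K W) n e l ξ ψ h).1 ∧
      cc (lawV (mapW S W) n e l X Ψ h).2 = (lawV (mapW K W) n e l ξ ψ h).2 := by
    intro l h hh
    have h1 := map_law cc (mapW S W (h % 2)) (e (h / 2)) (l h) (X h) (X (2 * n + h % 2))
      (Ψ h * Ψ (2 * n + h % 2))
    rw [hW, map_mul, hX h (by omega), hX _ (by omega), hΨ h (by omega), hΨ _ (by omega)] at h1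
    exact h1
  have hrel : ∀ h, h < 2 * n → (lawV (mapW S W) n e (fun _ => false) X Ψ h).1 *
      (lawV (mapW S W) n e (fun _ => true) X Ψ h).2 =
      (lawV (mapW S W) n e (fun _ => false) X Ψ h).2 *
      (lawV (mapW S W) n e (fun _ => true) X Ψ h).1 := by
    intro h hh
    refine (hR S (mapW S W (h % 2))).2.2 (e (h / 2)) (X h) (X (2 * n + h % 2)) _ ?_
    have e1 := hT.onW h (by omega)
    have e2 := hT.onW (2 * n + h % 2) (by omega)
    have e3 : (2 * n + h % 2) % 2 = h % 2 := by omega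
    rw [e3] at e2
    rw [mul_pow, e1, e2]
  -- the ratios
  have hrat : ∀ h, h < 2 * n → ∃ ρ : S,
      (lawV (mapW S W) n e (fun _ => true) X Ψ h).1 =
        ρ * (lawV (mapW S W) n e (fun _ => false) X Ψ h).1 ∧
      (lawV (mapW S W) n e (fun _ => true) X Ψ h).2 =
        ρ * (lawV (mapW S W) n e (fun _ => false) X Ψ h).2 ∧ cc ρ = ω h := by
    intro h hh
    set a := lawV (mapW S W) n e (fun _ => false) X Ψ h with ha
    set b := lawV (mapW S W) n e (fun _ => true) X Ψ h with hb
    obtain ⟨c1, c2⟩ := hlaw (fun _ => false) h hh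
    obtain ⟨d1, d2⟩ := hlaw (fun _ => true) h hh
    rw [← ha] at c1 c2
    rw [← hb] at d1 d2
    obtain ⟨w1, w2⟩ := hω h hh
    rw [← d1, ← c1] at w1
    rw [← d2, ← c2] at w2
    have hab : a.1 * b.2 = a.2 * b.1 := hrel h hh
    rcases hne h hh with hz | hz
    · rw [← c1] at hz
      have hu : a.1 * a.1⁻¹ = 1 := MvPowerSeries.mul_inv_cancel _ hz
      refine ⟨b.1 * a.1⁻¹, ?_, ?_, ?_⟩
      · rw [mul_assoc, mul_comm a.1⁻¹, hu, mul_one]
      · calc b.2 = (a.1 * a.1⁻¹) * b.2 := by rw [hu, one_mul]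
          _ = a.1⁻¹ * (a.1 * b.2) := by ring
          _ = b.1 * a.1⁻¹ * a.2 := by rw [hab]; ring
      · have h1 : cc (b.1 * a.1⁻¹) * cc a.1 = ω h * cc a.1 := by
          rw [← map_mul, mul_assoc, mul_comm a.1⁻¹, hu, mul_one, w1]
        exact mul_right_cancel₀ hz h1
    · rw [← c2] at hz
      have hu : a.2 * a.2⁻¹ = 1 := MvPowerSeries.mul_inv_cancel _ hz
      refine ⟨b.2 * a.2⁻¹, ?_, ?_, ?_⟩
      · calc b.1 = (a.2 * a.2⁻¹) * b.1 := by rw [hu, one_mul]
          _ = a.2⁻¹ * (a.2 * b.1) := by ring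
          _ = b.2 * a.2⁻¹ * a.1 := by rw [← hab]; ring
      · rw [mul_assoc, mul_comm a.2⁻¹, hu, mul_one]
      · have h1 : cc (b.2 * a.2⁻¹) * cc a.2 = ω h * cc a.2 := by
          rw [← map_mul, mul_assoc, mul_comm a.2⁻¹, hu, mul_one, w2]
        exact mul_right_cancel₀ hz h1
  choose! ρ hρ1 hρ2 hρ3 using hrat
  let g : ℕ → S := fun h => if lam h then ρ h else 1
  have hg : ∀ h, h < 2 * n → (lawV (mapW S W) n e lam X Ψ h).1 =
      g h * (lawV (mapW S W) n e (fun _ => false) X Ψ h).1 ∧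
      (lawV (mapW S W) n e lam X Ψ h).2 =
      g h * (lawV (mapW S W) n e (fun _ => false) X Ψ h).2 := by
    intro h hh
    cases hl : lam h
    · have : lawV (mapW S W) n e lam X Ψ h = lawV (mapW S W) n e (fun _ => false) X Ψ h := by
        unfold lawV
        rw [hl]
      rw [this]
      simp [g, hl]
    · have : lawV (mapW S W) n e lam X Ψ h = lawV (mapW S W) n e (fun _ => true) X Ψ h := by
        unfold lawV
        rw [hl]
      rw [this]
      have hgh : g h = ρ h := by simp [g, hl]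
      rw [hgh]
      exact ⟨hρ1 h hh, hρ2 h hh⟩
  have hP : Paux (mapW S W) n n n e (fun α => algebraMap K S (c α)) lam X Ψ =
      Paux (mapW S W) n n n e (fun α => algebraMap K S (c α)) (fun _ => false) X Ψ *
        ∏ h : Fin (2 * n), g h.val ^ n := by
    unfold Paux
    rw [Finset.sum_mul]
    refine Finset.sum_congr rfl fun β _ => ?_
    have h1 : (∏ h : Fin (2 * n), X h.val ^ (β.1 h).1.val *
        ((lawV (mapW S W) n e lam X Ψ h.val).1 ^ (n - (β.1 h).2.val) *
          (lawV (mapW S W) n e lam X Ψ h.val).2 ^ (β.1 h).2.val)) =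
        (∏ h : Fin (2 * n), X h.val ^ (β.1 h).1.val *
        ((lawV (mapW S W) n e (fun _ => false) X Ψ h.val).1 ^ (n - (β.1 h).2.val) *
          (lawV (mapW S W) n e (fun _ => false) X Ψ h.val).2 ^ (β.1 h).2.val)) *
        ∏ h : Fin (2 * n), g h.val ^ n := by
      rw [← Finset.prod_mul_distrib]
      refine Finset.prod_congr rfl fun h _ => ?_
      obtain ⟨g1, g2⟩ := hg h.val h.isLt
      rw [g1, g2, mul_pow, mul_pow]
      have h2 : g h.val ^ n = g h.val ^ (n - (β.1 h).2.val) * g h.val ^ (β.1 h).2.val := by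
        rw [← pow_add]
        congr 1
        have := (β.1 h).2.isLt
        omega
      rw [h2]
      ring
    rw [h1]
    ring
  have hcg : cc (∏ h : Fin (2 * n), g h.val ^ n) =
      ∏ h ∈ Finset.range (2 * n), if lam h then ω h ^ n else 1 := by
    rw [map_prod, Finset.prod_range]
    refine Finset.prod_congr rfl fun h _ => ?_
    rw [map_pow]
    cases hl : lam h.val
    · simp [g, hl]
    · have hgh : g h.val = ρ h.val := by simp [g, hl]
      rw [hgh, hρ3 h.val h.isLt]
      simp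
  show MvPowerSeries.coeff α (Paux (mapW S W) n n n e (fun α => algebraMap K S (c α)) lam X Ψ) = _
  rw [hP, (hM K (Fin (2 * n + 2)) d _ _ α hd hmin).1]
  congr 1

end Pool.Agent.Helper53.SGT
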